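import Pool.Agent.H53.SGC.TopDefs

set_option autoImplicit false

/-!
# SGC, module MBU: the product Borsuk-Ulam theorem from the combinatorial theorem
-/

open Finset

namespace Pool.SG

namespace MBUaux

/-- number of even coordinates -/
def ev {n : ℕ} (p : Fin n → ℕ) : ℕ := (univ.filter fun a => Even (p a)).card

lemma ev_le {n : ℕ} (p : Fin n → ℕ) : ev p ≤ n := by
  have h := card_le_univ (univ.filter fun a => Even (p a))
  rwa [Fintype.card_fin] at h

lemma ev_congr {n : ℕ} (p p' : Fin n → ℕ) (h : ∀ a, Even (p a) ↔ Even (p' a)) : ev p = ev p' := by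
  unfold ev
  congr 1
  ext a
  simp only [mem_filter, mem_univ, true_and]
  exact h a

lemma ev_vtx {n m : ℕ} (w : Fin n → Fin m) (e : Fin n → Bool) (τ : Equiv.Perm (Fin n)) (r : ℕ)
    (hr : r ≤ n) : ev (vtx w e τ r) = r := by
  unfold ev
  have h1 : (univ.filter fun a => Even (vtx w e τ r a)) =
      univ.filter fun a : Fin n => (τ a : ℕ) < r := by
    ext a
    simp only [mem_filter, mem_univ, true_and, vtx]
    by_cases h : (τ a : ℕ) < r
    · rw [if_pos h]
      refine ⟨fun _ => h, fun _ => ⟨(w a : ℕ) + (e a).toNat, by ring⟩⟩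
    · rw [if_neg h]
      refine ⟨fun h1 => ?_, fun h1 => absurd h1 h⟩
      exact absurd h1 (Nat.not_even_iff_odd.2 ⟨(w a : ℕ), rfl⟩)
  rw [h1]
  have h2 : (univ.filter fun a : Fin n => (τ a : ℕ) < r).card =
      (univ.filter fun a : Fin n => (a : ℕ) < r).card := by
    rw [← Finset.card_map τ.toEmbedding]
    congr 1
    ext a
    simp only [mem_map, mem_filter, mem_univ, true_and, Equiv.coe_toEmbedding]
    constructor
    · rintro ⟨b, hb, rfl⟩
      exact hb
    · intro h
      exact ⟨τ.symm a, by simpa using h, by simp⟩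
  rw [h2]
  have h3 : (univ.filter fun a : Fin n => (a : ℕ) < r).card = (range r).card := by
    rw [← Finset.card_map Fin.valEmbedding]
    congr 1
    ext a
    simp only [mem_map, mem_filter, mem_univ, true_and, Fin.valEmbedding_apply, mem_range]
    constructor
    · rintro ⟨b, hb, rfl⟩
      exact hb
    · intro h
      exact ⟨⟨a, by omega⟩, h, rfl⟩
  rw [h3, card_range]

lemma vtx_le {n m : ℕ} (w : Fin n → Fin m) (e : Fin n → Bool) (τ : Equiv.Perm (Fin n)) (r : ℕ)
    (a : Fin n) : vtx w e τ r a ≤ 2 * m := by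
  unfold vtx
  have h1 := (w a).isLt
  have h2 : (e a).toNat ≤ 1 := Bool.toNat_le (e a)
  split_ifs <;> omega

/-- consecutive vertices are at distance at most one in each coordinate -/
lemma vtx_step {n m : ℕ} (w : Fin n → Fin m) (e : Fin n → Bool) (τ : Equiv.Perm (Fin n)) (r : ℕ)
    (a : Fin n) : |((vtx w e τ r a : ℕ) : ℝ) - ((vtx w e τ (r + 1) a : ℕ) : ℝ)| ≤ 1 := by
  unfold vtx
  cases h : e a
  · by_cases h1 : (τ a : ℕ) < r
    · rw [if_pos h1, if_pos (by omega)]; simp
    · by_cases h2 : (τ a : ℕ) < r + 1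
      · rw [if_neg h1, if_pos h2]; push_cast; simp
      · rw [if_neg h1, if_neg h2]; simp
  · by_cases h1 : (τ a : ℕ) < r
    · rw [if_pos h1, if_pos (by omega)]; simp
    · by_cases h2 : (τ a : ℕ) < r + 1
      · rw [if_neg h1, if_pos h2]; push_cast
        rw [abs_le]; simp only [Bool.toNat_true, Nat.cast_one]; constructor <;> linarith
      · rw [if_neg h1, if_neg h2]; simp

/-- sign bit -/
noncomputable def sb (x : ℝ) : ZMod 2 := if x < 0 then 1 else 0

lemma sb_neg {x : ℝ} (hx : x ≠ 0) : sb (-x) = sb x + 1 := by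
  unfold sb
  rcases lt_or_gt_of_ne hx with h | h
  · rw [if_pos h, if_neg (by linarith)]
    decide
  · rw [if_pos (by linarith), if_neg (by linarith)]
    decide

open Classical in
/-- labels: the largest index with a large value -/
noncomputable def lab {n : ℕ} (hn : 0 < n) (H : Fin n → (Fin n → ℕ) → ℝ) (d : ℝ)
    (p : Fin n → ℕ) : Fin n :=
  if h : (univ.filter fun i => 2 * d - ev p * (d / (n + 1)) ≤ |H i p|).Nonempty then
    (univ.filter fun i => 2 * d - ev p * (d / (n + 1)) ≤ |H i p|).max' h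
  else ⟨0, hn⟩

lemma lab_congr {n : ℕ} (hn : 0 < n) (H : Fin n → (Fin n → ℕ) → ℝ) (d : ℝ)
    (p p' : Fin n → ℕ) (h1 : ev p = ev p') (h2 : ∀ i, |H i p| = |H i p'|) :
    lab hn H d p = lab hn H d p' := by
  unfold lab
  simp only [h1, h2]

lemma lab_spec {n : ℕ} (hn : 0 < n) (H : Fin n → (Fin n → ℕ) → ℝ) (d : ℝ) (hd : 0 < d)
    (p : Fin n → ℕ) (hp : ∃ i, 2 * d ≤ |H i p|) :
    2 * d - ev p * (d / (n + 1)) ≤ |H (lab hn H d p) p| := by
  classical
  obtain ⟨i, hi⟩ := hp
  have h : (univ.filter fun i => 2 * d - ev p * (d / (n + 1)) ≤ |H i p|).Nonempty := by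
    refine ⟨i, ?_⟩
    rw [mem_filter]
    refine ⟨mem_univ _, le_trans ?_ hi⟩
    have : 0 ≤ (ev p : ℝ) * (d / (n + 1)) := by positivity
    linarith
  unfold lab
  rw [dif_pos h]
  have := Finset.max'_mem _ h
  rw [mem_filter] at this
  convert this.2

lemma lab_max {n : ℕ} (hn : 0 < n) (H : Fin n → (Fin n → ℕ) → ℝ) (d : ℝ)
    (p : Fin n → ℕ) (i : Fin n) (hi : 2 * d - ev p * (d / (n + 1)) ≤ |H i p|) :
    i ≤ lab hn H d p := by
  classical
  have h : (univ.filter fun i => 2 * d - ev p * (d / (n + 1)) ≤ |H i p|).Nonempty := by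
    refine ⟨i, ?_⟩
    rw [mem_filter]
    exact ⟨mem_univ _, hi⟩
  unfold lab
  rw [dif_pos h]
  apply Finset.le_max'
  rw [mem_filter]
  exact ⟨mem_univ _, hi⟩

lemma low {n : ℕ} (d : ℝ) (hd : 0 < d) (p : Fin n → ℕ) :
    d < 2 * d - ev p * (d / (n + 1)) := by
  have h1 : (ev p : ℝ) ≤ n := by exact_mod_cast ev_le p
  have h2 : (ev p : ℝ) * (d / (n + 1)) ≤ n * (d / (n + 1)) :=
    mul_le_mul_of_nonneg_right h1 (by positivity)
  have h3 : (n : ℝ) * (d / (n + 1)) < d := by
    rw [mul_div_assoc', div_lt_iff₀ (by positivity)]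
    nlinarith
  linarith

/-- the discrete part -/
theorem disc (hC : COMBStmt) (n m : ℕ) (hm : 0 < m) (hn : 0 < n) (ty : Fin n → ℕ)
    (H : Fin n → (Fin n → ℕ) → ℝ) (ε : Fin n → (Fin n → ℕ) → ZMod 2)
    (hε1 : R1 n m ty ε) (hε2 : R2 n m ty ε) (d : ℝ) (hd : 0 < d)
    (ha : ∀ p : Fin n → ℕ, (∀ a, p a ≤ 2 * m) → ∃ i, 2 * d ≤ |H i p|)
    (hb : ∀ (i : Fin n) (w : Fin n → Fin m) (e : Fin n → Bool) (τ : Equiv.Perm (Fin n)) (r : ℕ),
      r < n → |H i (vtx w e τ r) - H i (vtx w e τ (r + 1))| < d / (n + 1))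
    (hc : ∀ (i c : Fin n) (p : Fin n → ℕ), (∀ a, p a ≤ 2 * m) → p c = 2 * m →
      H i p = if ty c = ty i then
        - H i (fun a => if a = c then 0 else if c < a ∧ ty a = ty c then 2 * m - p a else p a)
        else H i (fun a => if a = c then 0 else if c < a ∧ ty a = ty c then 2 * m - p a else p a))
    (he : ∀ (i a b : Fin n) (p : Fin n → ℕ), (∀ c, p c ≤ 2 * m) → a < b → ty a = ty b →
      (p b = 0 ∨ p b = 2 * m) → H i p = H i (Function.update p a (2 * m - p a))) : False := by
  classical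
  obtain ⟨u, hu⟩ : ∃ u : Fin n → (Fin n → ℕ) → ZMod 2,
      u = fun i p => if lab hn H d p = i then sb (H i p) else ε i p := ⟨_, rfl⟩
  have hR1 : R1 n m ty u := by
    intro i c p hp hpc
    set p' : Fin n → ℕ := fun a => if a = c then 0 else
      if c < a ∧ ty a = ty c then 2 * m - p a else p a with hp'
    have h1 : ev p = ev p' := by
      apply ev_congr
      intro a
      rw [hp']
      simp only
      by_cases h : a = c
      · subst h
        rw [if_pos rfl, hpc]
        simp
      · rw [if_neg h]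
        by_cases h2 : c < a ∧ ty a = ty c
        · rw [if_pos h2, Nat.even_sub (hp a)]
          simp
        · rw [if_neg h2]
    have h2 : ∀ j, |H j p| = |H j p'| := by
      intro j
      rw [hc j c p hp hpc]
      split_ifs
      · rw [abs_neg]
      · rfl
    have h3 : lab hn H d p = lab hn H d p' := lab_congr hn H d p p' h1 h2
    rw [hu]
    simp only
    rw [← h3]
    by_cases h4 : lab hn H d p = i
    · rw [if_pos h4, if_pos h4]
      have h5 : H i p' ≠ 0 := by
        have h6 := lab_spec hn H d hd p (ha p hp)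
        have h7 := low d hd p
        rw [h4, h2] at h6
        intro h8
        rw [h8, abs_zero] at h6
        linarith
      rw [hc i c p hp hpc]
      by_cases h6 : ty c = ty i
      · rw [if_pos h6, if_pos h6, sb_neg h5]
      · rw [if_neg h6, if_neg h6, add_zero]
    · rw [if_neg h4, if_neg h4]
      exact hε1 i c p hp hpc
  have hR2 : R2 n m ty u := by
    intro i a b p hp hab hty hpb
    have h1 : ev p = ev (Function.update p a (2 * m - p a)) := by
      apply ev_congr
      intro c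
      by_cases h : c = a
      · subst h
        rw [Function.update_self, Nat.even_sub (hp c)]
        simp
      · rw [Function.update_of_ne h]
    have h2 : ∀ j, H j p = H j (Function.update p a (2 * m - p a)) :=
      fun j => he j a b p hp hab hty hpb
    have h3 : lab hn H d p = lab hn H d (Function.update p a (2 * m - p a)) :=
      lab_congr hn H d _ _ h1 fun j => by rw [← h2 j]
    rw [hu]
    simp only
    rw [← h3, ← h2, ← hε2 i a b p hp hab hty hpb]
  have hT := hC n m hm ty u hR1 hR2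
  -- a flag with nonzero product
  obtain ⟨w, e, τ, hprod⟩ : ∃ (w : Fin n → Fin m) (e : Fin n → Bool) (τ : Equiv.Perm (Fin n)),
      ∏ i : Fin n, (u i (vtx w e τ i) + u i (vtx w e τ (i + 1))) ≠ 0 := by
    by_contra hcon
    push Not at hcon
    have : Tsum n m u = 0 := by
      unfold Tsum
      exact sum_eq_zero fun w _ => sum_eq_zero fun e _ => sum_eq_zero fun τ _ => hcon w e τ
    rw [this] at hT
    exact absurd hT (by decide)
  rw [prod_ne_zero_iff] at hprod
  -- monotonicity of the labels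
  have hmono : ∀ r, r < n → lab hn H d (vtx w e τ r) ≤ lab hn H d (vtx w e τ (r + 1)) := by
    intro r hr
    apply lab_max
    rw [ev_vtx w e τ (r + 1) (by omega)]
    have h1 := lab_spec hn H d hd (vtx w e τ r) (ha _ (vtx_le w e τ r))
    rw [ev_vtx w e τ r (by omega)] at h1
    have h2 := hb (lab hn H d (vtx w e τ r)) w e τ r hr
    have h3 := abs_sub_abs_le_abs_sub (H (lab hn H d (vtx w e τ r)) (vtx w e τ r))
      (H (lab hn H d (vtx w e τ r)) (vtx w e τ (r + 1)))
    push_cast
    linarith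
  -- the index
  have hex : ∃ i, i < n ∧ (lab hn H d (vtx w e τ (i + 1)) : ℕ) ≤ i := by
    refine ⟨n - 1, by omega, ?_⟩
    have := (lab hn H d (vtx w e τ (n - 1 + 1))).isLt
    omega
  obtain ⟨hi1, hi2⟩ := Nat.find_spec hex
  have hmin := fun k (hk : k < Nat.find hex) => Nat.find_min hex hk
  set i0 := Nat.find hex with hi0
  have hlow : i0 ≤ (lab hn H d (vtx w e τ i0) : ℕ) := by
    rcases Nat.eq_zero_or_pos i0 with h | h
    · rw [h]; exact Nat.zero_le _
    · have h1 := hmin (i0 - 1) (by omega)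
      have h2 : ¬ (lab hn H d (vtx w e τ (i0 - 1 + 1)) : ℕ) ≤ i0 - 1 := fun h3 =>
        h1 ⟨by omega, h3⟩
      rw [show i0 - 1 + 1 = i0 by omega] at h2
      omega
  have hm1 := hmono i0 hi1
  rw [Fin.le_def] at hm1
  have hl1 : lab hn H d (vtx w e τ i0) = ⟨i0, hi1⟩ := by
    apply Fin.ext
    simp only
    omega
  have hl2 : lab hn H d (vtx w e τ (i0 + 1)) = ⟨i0, hi1⟩ := by
    apply Fin.ext
    simp only
    omega
  apply hprod ⟨i0, hi1⟩ (mem_univ _)
  simp only
  rw [hu]
  simp only
  rw [if_pos hl1, if_pos hl2]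
  have h1 := lab_spec hn H d hd (vtx w e τ i0) (ha _ (vtx_le w e τ i0))
  have h2 := lab_spec hn H d hd (vtx w e τ (i0 + 1)) (ha _ (vtx_le w e τ (i0 + 1)))
  rw [hl1] at h1
  rw [hl2] at h2
  have h3 := low d hd (vtx w e τ i0)
  have h4 := low d hd (vtx w e τ (i0 + 1))
  have h5 := hb ⟨i0, hi1⟩ w e τ i0 hi1
  have h6 : d / ((n : ℝ) + 1) ≤ d := div_le_self hd.le (by
    have : (0 : ℝ) ≤ n := Nat.cast_nonneg n
    linarith)
  have h7 : sb (H ⟨i0, hi1⟩ (vtx w e τ i0)) = sb (H ⟨i0, hi1⟩ (vtx w e τ (i0 + 1))) := by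
    unfold sb
    rw [abs_lt] at h5
    by_cases h8 : H ⟨i0, hi1⟩ (vtx w e τ i0) < 0
    · rw [abs_of_neg h8] at h1
      rw [if_pos h8, if_pos (by linarith)]
    · rw [abs_of_nonneg (not_lt.1 h8)] at h1
      rw [if_neg h8, if_neg (by linarith)]
  rw [h7]
  exact CharTwo.add_self_eq_zero _

/-- the sign of the coordinate `l` -/
noncomputable def sg {N : ℕ → ℕ} (l : ℕ) (x : (j : ℕ) → Sph (N j)) : ZMod 2 := by
  classical
  exact if WellOrderingRel (x l) (-(x l)) then 1 else 0

lemma sg_flip {N : ℕ → ℕ} (l l' : ℕ) (x : (j : ℕ) → Sph (N j)) :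
    sg l (flip l' x) = sg l x + (if l' = l then 1 else 0) := by
  classical
  unfold sg flip
  by_cases h : l' = l
  · subst h
    rw [if_pos rfl, Function.update_self, neg_neg]
    have hne : x l' ≠ -(x l') := ne_neg_of_mem_unit_sphere ℝ _
    rcases trichotomous_of WellOrderingRel (x l') (-(x l')) with h1 | h1 | h1
    · have h2 : ¬ WellOrderingRel (-(x l')) (x l') := asymm h1
      rw [if_neg h2, if_pos h1]
      decide
    · exact absurd h1 hne
    · have h2 : ¬ WellOrderingRel (x l') (-(x l')) := asymm h1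
      rw [if_pos h1, if_neg h2]
      decide
  · rw [if_neg h, Function.update_of_ne (Ne.symm h), add_zero]

/-- the angles of a grid point -/
noncomputable def ang {n : ℕ} (m : ℕ) (p : Fin n → ℕ) : Fin n → ℝ :=
  fun a => Real.pi * (p a : ℝ) / (2 * (m : ℝ))

lemma ang_refl (m : ℕ) (hm : 0 < m) (x : ℕ) (hx : x ≤ 2 * m) :
    Real.pi * ((2 * m - x : ℕ) : ℝ) / (2 * (m : ℝ)) = Real.pi - Real.pi * (x : ℝ) / (2 * (m : ℝ)) := by
  have h : (m : ℝ) ≠ 0 := by exact_mod_cast hm.ne'
  rw [Nat.cast_sub hx]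
  push_cast
  field_simp

theorem mbu_fin (hC : COMBStmt) (hS : SPHStmt) (N : ℕ → ℕ) (J : Finset ℕ) (n : ℕ)
    (ty : Fin n → ℕ) (hJ : ∀ i, ty i ∈ J) (hN : ∀ j, Fintype.card {i // ty i = j} ≤ N j)
    (g : Fin n → ((j : ℕ) → Sph (N j)) → ℝ) (hg : ∀ i, Continuous (g i))
    (heq : ∀ i, ∀ l ∈ J, ∀ x, g i (flip l x) = if l = ty i then - g i x else g i x) :
    ∃ x, ∀ i, g i x = 0 := by
  classical
  obtain ⟨X, hX, hX1, hX2⟩ := hS N n ty hN
  by_contra hcon
  push Not at hcon
  have hn : 0 < n := by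
    obtain ⟨i, _⟩ := hcon (X 0)
    exact Nat.pos_of_ne_zero (by rintro rfl; exact i.elim0)
  -- lower bound
  obtain ⟨d, hd, hd2⟩ : ∃ d : ℝ, 0 < d ∧ ∀ x, ∃ i, 2 * d ≤ |g i x| := by
    have hM : Continuous fun x : ((j : ℕ) → Sph (N j)) => ‖fun i => g i x‖ :=
      (continuous_pi hg).norm
    obtain ⟨x0, -, hx0⟩ := IsCompact.exists_isMinOn isCompact_univ
      (⟨X 0, Set.mem_univ _⟩ : (Set.univ : Set ((j : ℕ) → Sph (N j))).Nonempty) hM.continuousOn
    have hpos : 0 < ‖fun i => g i x0‖ := by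
      rw [norm_pos_iff]
      obtain ⟨i, hi⟩ := hcon x0
      intro h
      exact hi (congrFun h i)
    refine ⟨‖fun i => g i x0‖ / 2, by positivity, fun x => ?_⟩
    by_contra h
    push Not at h
    have h1 : ‖fun i => g i x‖ < ‖fun i => g i x0‖ := by
      rw [pi_norm_lt_iff hpos]
      intro i
      rw [Real.norm_eq_abs]
      have := h i
      linarith
    exact absurd (hx0 (Set.mem_univ x)) (not_le.2 h1)
  -- uniform continuity
  have hF : Continuous fun θ : Fin n → ℝ => fun i => g i (X θ) :=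
    continuous_pi fun i => (hg i).comp hX
  have hK : IsCompact (Set.Icc (0 : Fin n → ℝ) (fun _ => Real.pi)) := isCompact_Icc
  have hUC := hK.uniformContinuousOn_of_continuous hF.continuousOn
  rw [Metric.uniformContinuousOn_iff] at hUC
  obtain ⟨δ, hδ, hδ2⟩ := hUC (d / (n + 1)) (by positivity)
  obtain ⟨m, hm⟩ := exists_nat_gt (Real.pi / δ)
  have hm0 : 0 < m := by
    have h1 : (0 : ℝ) < Real.pi / δ := div_pos Real.pi_pos hδ
    exact_mod_cast h1.trans hm
  have hmR : (0 : ℝ) < m := by exact_mod_cast hm0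
  have hmesh : Real.pi / (2 * (m : ℝ)) < δ := by
    rw [div_lt_iff₀ hδ] at hm
    rw [div_lt_iff₀ (by positivity)]
    nlinarith
  -- the grid
  have hin : ∀ p : Fin n → ℕ, (∀ a, p a ≤ 2 * m) →
      ang m p ∈ Set.Icc (0 : Fin n → ℝ) (fun _ => Real.pi) := by
    intro p hp
    constructor
    · intro a
      simp only [Pi.zero_apply, ang]
      positivity
    · intro a
      simp only [ang]
      rw [div_le_iff₀ (by positivity)]
      have h1 : (p a : ℝ) ≤ 2 * m := by exact_mod_cast hp a
      exact mul_le_mul_of_nonneg_left h1 Real.pi_pos.le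
  have hface : ∀ (c : Fin n) (p : Fin n → ℕ), (∀ a, p a ≤ 2 * m) → p c = 2 * m →
      X (ang m p) = flip (ty c) (X (ang m
        (fun a => if a = c then 0 else if c < a ∧ ty a = ty c then 2 * m - p a else p a))) := by
    intro c p hp hpc
    have h1 : ang m p c = Real.pi := by
      simp only [ang]
      rw [hpc]
      push_cast
      field_simp
    rw [hX1 c (ang m p) h1]
    congr 2
    funext a
    simp only [ang]
    by_cases h : a = c
    · rw [if_pos h, if_pos h]; simp
    · rw [if_neg h, if_neg h]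
      by_cases h2 : c < a ∧ ty a = ty c
      · rw [if_pos h2, if_pos h2, ang_refl m hm0 (p a) (hp a)]
      · rw [if_neg h2, if_neg h2]
  have hrefl : ∀ (a b : Fin n) (p : Fin n → ℕ), (∀ c, p c ≤ 2 * m) → a < b → ty a = ty b →
      (p b = 0 ∨ p b = 2 * m) → X (ang m (Function.update p a (2 * m - p a))) = X (ang m p) := by
    intro a b p hp hab hty hpb
    have h1 : Real.sin (ang m p b) = 0 := by
      simp only [ang]
      rcases hpb with h | h
      · rw [h]; simp
      · rw [h]
        have : Real.pi * ((2 * m : ℕ) : ℝ) / (2 * (m : ℝ)) = Real.pi := by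
          push_cast
          field_simp
        rw [this, Real.sin_pi]
    rw [← hX2 a b (ang m p) (Real.pi - ang m p a) hab hty h1]
    congr 1
    funext c
    by_cases h : c = a
    · subst h
      rw [Function.update_self]
      simp only [ang]
      rw [Function.update_self, ang_refl m hm0 (p c) (hp c)]
    · rw [Function.update_of_ne h]
      simp only [ang]
      rw [Function.update_of_ne h]
  refine disc hC n m hm0 hn ty (fun i p => g i (X (ang m p))) (fun i p => sg (ty i) (X (ang m p)))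
    ?_ ?_ d hd ?_ ?_ ?_ ?_
  · intro i c p hp hpc
    simp only
    rw [hface c p hp hpc, sg_flip]
  · intro i a b p hp hab hty hpb
    simp only
    rw [hrefl a b p hp hab hty hpb]
  · intro p _
    exact hd2 _
  · intro i w e τ r hr
    have h1 := hδ2 (ang m (vtx w e τ r)) (hin _ (vtx_le w e τ r)) (ang m (vtx w e τ (r + 1)))
      (hin _ (vtx_le w e τ (r + 1))) (by
        rw [dist_pi_lt_iff hδ]
        intro a
        rw [Real.dist_eq]
        simp only [ang]
        have h2 := vtx_step w e τ r a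
        have h3 : Real.pi * ((vtx w e τ r a : ℕ) : ℝ) / (2 * (m : ℝ)) -
            Real.pi * ((vtx w e τ (r + 1) a : ℕ) : ℝ) / (2 * (m : ℝ)) =
            Real.pi / (2 * (m : ℝ)) *
              (((vtx w e τ r a : ℕ) : ℝ) - ((vtx w e τ (r + 1) a : ℕ) : ℝ)) := by ring
        have h4 : 0 < Real.pi / (2 * (m : ℝ)) := by positivity
        rw [h3, abs_mul, abs_of_pos h4]
        calc _ ≤ Real.pi / (2 * (m : ℝ)) * 1 := mul_le_mul_of_nonneg_left h2 h4.le
          _ < δ := by rw [mul_one]; exact hmesh)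
    rw [dist_pi_lt_iff (by positivity)] at h1
    have h2 := h1 i
    rw [Real.dist_eq] at h2
    exact h2
  · intro i c p hp hpc
    rw [hface c p hp hpc, heq i (ty c) (hJ c)]
  · intro i a b p hp hab hty hpb
    rw [hrefl a b p hp hab hty hpb]

end MBUaux

theorem mbu (hC : COMBStmt) (hS : SPHStmt) : MBUStmt := by
  intro N J ι _ ty hJ hN g hg heq
  classical
  let e := Fintype.equivFin ι
  obtain ⟨x, hx⟩ := MBUaux.mbu_fin hC hS N J (Fintype.card ι) (fun i => ty (e.symm i))
    (fun i => hJ _) (fun j => by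
      refine le_trans (le_of_eq ?_) (hN j)
      exact Fintype.card_congr (e.symm.subtypeEquiv fun _ => Iff.rfl))
    (fun i => g (e.symm i)) (fun i => hg _) (fun i l hl x => heq _ l hl x)
  refine ⟨x, fun i => ?_⟩
  have := hx (e i)
  simpa using this

end Pool.SG
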